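import Pool.Agent.Lib.MP_fa837f_gt.P2.Iface

/-!
AK: `tr ((Dh)^2)` in the frame and the antisymmetric part of `Dh`, for `h = A ∇ψ`.
-/

set_option autoImplicit false

open MeasureTheory Matrix Set Filter Topology

namespace Pool.Agent.Lib.MP_fa837f_gt.P2.H28

variable {n k : ℕ}

/-- The derivative in the direction `v` is a combination of partial derivatives. -/
theorem fd_pd (f : Pt k → ℝ) (y v : Pt k) : fderiv ℝ f y v = ∑ p, v p * pd p f y := by
  have h : v = ∑ p, v p • (Pi.single p (1 : ℝ) : Pt k) := by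
    ext q
    simp [Finset.sum_apply, Pi.single_apply]
  conv_lhs => rw [h]
  rw [map_sum]
  exact Finset.sum_congr rfl fun p _ => by rw [map_smul, smul_eq_mul]; rfl

theorem RR_symm (m : Fin n → Fin k → ℝ) (r : Fin n → ℝ) : (RR m r)ᵀ = RR m r := by
  unfold RR
  rw [Matrix.transpose_sum]
  refine Finset.sum_congr rfl fun i _ => ?_
  rw [Matrix.transpose_smul, Matrix.transpose_vecMulVec]

theorem Rinv_symm (m : Fin n → Fin k → ℝ) (r : Fin n → ℝ) (a b : Fin k) :
    (RR m r)⁻¹ a b = (RR m r)⁻¹ b a := by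
  have h : ((RR m r)⁻¹)ᵀ = (RR m r)⁻¹ := by rw [Matrix.transpose_nonsing_inv, RR_symm]
  conv_lhs => rw [← h]
  rfl

/-- The components of `h = A ∇ψ`. -/
theorem hf_eq (S : Sys n k) (ψ : Pt k → ℝ) (z : Pt k) (b : Fin k) (d : Fin 3) :
    S.hf ψ z (b, d) = ∑ a, (RR S.m (S.r z))⁻¹ b a * pd (a, d) ψ z := by
  unfold Sys.hf Sys.A
  rw [Fintype.sum_prod_type]
  refine Finset.sum_congr rfl fun a _ => ?_
  simp [pd, ite_mul]

/-- `m_jᵀ h = D_{jd} ψ`. -/
theorem Yv_hf (S : Sys n k) (ψ : Pt k → ℝ) (z : Pt k) (j : Fin n) (d : Fin 3) :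
    Yv S.m (S.hf ψ z) j d = ∑ a, bb S.m (S.r z) j a * pd (a, d) ψ z := by
  unfold Yv
  simp only [hf_eq, Finset.mul_sum]
  rw [Finset.sum_comm]
  refine Finset.sum_congr rfl fun a _ => ?_
  rw [bb, Matrix.mulVec, dotProduct, Finset.sum_mul]
  refine Finset.sum_congr rfl fun b _ => ?_
  rw [Rinv_symm S.m (S.r z) a b]
  ring

theorem pd_smooth (ψ : Pt k → ℝ) (hψ : ContDiff ℝ (⊤ : ℕ∞) ψ) (p : Fin k × Fin 3) :
    ContDiff ℝ (⊤ : ℕ∞) (pd p ψ) := by
  unfold pd
  exact (hψ.fderiv_right (m := (⊤ : ℕ∞)) (by simp)).clm_apply contDiff_const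

theorem hf_smooth (hSr : SrStatement) (S : Sys n k) (ψ : Pt k → ℝ)
    (hψ : ContDiff ℝ (⊤ : ℕ∞) ψ) (q : Fin k × Fin 3) :
    ContDiff ℝ (⊤ : ℕ∞) fun z => S.hf ψ z q := by
  obtain ⟨b, d⟩ := q
  simp only [hf_eq]
  exact ContDiff.sum fun a _ => ((hSr n k S 0).sinv b a).mul (pd_smooth ψ hψ _)

/-- `X` through the partial derivatives of `h`. -/
theorem X_eq (hSr : SrStatement) (S : Sys n k) (ψ : Pt k → ℝ) (hψ : ContDiff ℝ (⊤ : ℕ∞) ψ)
    (y : Pt k) (i : Fin n) (c : Fin 3) (j : Fin n) (d : Fin 3) :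
    S.X ψ y i c j d = ∑ a, ∑ b, bb S.m (S.r y) i a * S.m j b *
      pd (a, c) (fun z => S.hf ψ z (b, d)) y := by
  have hd : ∀ q, DifferentiableAt ℝ (fun z => S.hf ψ z q) y := fun q =>
    (hf_smooth hSr S ψ hψ q).differentiable (by simp) y
  unfold Sys.X Sys.D Yv
  rw [fderiv_fun_sum (fun b _ => (hd (b, d)).const_mul (S.m j b))]
  simp only [_root_.sum_apply]
  rw [Finset.sum_comm]
  refine Finset.sum_congr rfl fun b _ => ?_
  rw [fderiv_const_mul (hd (b, d)), _root_.smul_apply, smul_eq_mul, fd_pd, Fintype.sum_prod_type,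
    Finset.mul_sum]
  refine Finset.sum_congr rfl fun a _ => ?_
  simp only [Sys.fr]
  rw [Finset.sum_eq_single c]
  · simp; ring
  · intro c' _ hc'
    simp [hc']
  · simp

/-- The resolution of the identity. -/
theorem res_sum (r : Fin n → ℝ) (B m : Fin n → Fin k → ℝ)
    (h : ∀ a b, ∑ j, r j * B j a * m j b = if a = b then 1 else 0) (T U : Fin k → ℝ) :
    ∑ j, r j * ((∑ b, m j b * T b) * (∑ a, B j a * U a)) = ∑ b, T b * U b := by
  calc ∑ j, r j * ((∑ b, m j b * T b) * (∑ a, B j a * U a))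
      = ∑ j, ∑ b, ∑ a, (r j * B j a * m j b) * (T b * U a) := by
        refine Finset.sum_congr rfl fun j _ => ?_
        rw [Finset.sum_mul_sum, Finset.mul_sum]
        refine Finset.sum_congr rfl fun b _ => ?_
        rw [Finset.mul_sum]
        exact Finset.sum_congr rfl fun a _ => by ring
    _ = ∑ b, ∑ a, (∑ j, r j * B j a * m j b) * (T b * U a) := by
        rw [Finset.sum_comm]
        refine Finset.sum_congr rfl fun b _ => ?_
        rw [Finset.sum_comm]
        exact Finset.sum_congr rfl fun a _ => by rw [Finset.sum_mul]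
    _ = ∑ b, T b * U b := by
        refine Finset.sum_congr rfl fun b _ => ?_
        simp [h]

theorem ak1 (hWa : WaStatement) (hSl : SlStatement) (hSr : SrStatement) (S : Sys n k)
    (ψ : Pt k → ℝ) (hψ : ContDiff ℝ (⊤ : ℕ∞) ψ) (y : Pt k) :
    ∑ p, ∑ q, pd p (fun z => S.hf ψ z q) y * pd q (fun z => S.hf ψ z p) y =
      ∑ i, ∑ c, ∑ j, ∑ d, S.r y i * S.r y j * (S.X ψ y i c j d * S.X ψ y j d i c) := by
  have hres := (hWa n k S.m (S.r y) S.hm ((hSl n k S).rpos y)).res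
  set M : Fin k × Fin 3 → Fin k × Fin 3 → ℝ := fun p q => pd p (fun z => S.hf ψ z q) y with hM
  have hX : ∀ i c j d, S.X ψ y i c j d = ∑ a, ∑ b, bb S.m (S.r y) i a * S.m j b *
      M (a, c) (b, d) := fun i c j d => X_eq hSr S ψ hψ y i c j d
  have e1 : ∀ c d, ∑ i, ∑ j, S.r y i * S.r y j * (S.X ψ y i c j d * S.X ψ y j d i c) =
      ∑ a, ∑ b, M (a, c) (b, d) * M (b, d) (a, c) := by
    intro c d
    have s1 : ∀ i, ∑ j, S.r y i * S.r y j * (S.X ψ y i c j d * S.X ψ y j d i c) =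
        ∑ b, S.r y i * ((∑ b', S.m i b' * M (b, d) (b', c)) *
          (∑ a, bb S.m (S.r y) i a * M (a, c) (b, d))) := by
      intro i
      have h := res_sum (S.r y) (bb S.m (S.r y)) S.m hres
        (fun b => ∑ a, bb S.m (S.r y) i a * M (a, c) (b, d))
        (fun b => ∑ b', S.m i b' * M (b, d) (b', c))
      have e2 : ∑ j, S.r y i * S.r y j * (S.X ψ y i c j d * S.X ψ y j d i c) =
          S.r y i * ∑ j, S.r y j * ((∑ b, S.m j b * ∑ a, bb S.m (S.r y) i a * M (a, c) (b, d)) *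
            (∑ a, bb S.m (S.r y) j a * ∑ b', S.m i b' * M (a, d) (b', c))) := by
        rw [Finset.mul_sum]
        refine Finset.sum_congr rfl fun j _ => ?_
        have f1 : S.X ψ y i c j d =
            ∑ b, S.m j b * ∑ a, bb S.m (S.r y) i a * M (a, c) (b, d) := by
          rw [hX, Finset.sum_comm]
          refine Finset.sum_congr rfl fun b _ => ?_
          rw [Finset.mul_sum]
          exact Finset.sum_congr rfl fun a _ => by ring
        have f2 : S.X ψ y j d i c =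
            ∑ a, bb S.m (S.r y) j a * ∑ b', S.m i b' * M (a, d) (b', c) := by
          rw [hX]
          refine Finset.sum_congr rfl fun a _ => ?_
          rw [Finset.mul_sum]
          exact Finset.sum_congr rfl fun b _ => by ring
        rw [f1, f2]
        ring
      rw [e2, h, Finset.mul_sum]
      exact Finset.sum_congr rfl fun b _ => by ring
    simp only [s1]
    rw [Finset.sum_comm]
    have s2 : ∀ b, ∑ i, S.r y i * ((∑ b', S.m i b' * M (b, d) (b', c)) *
          (∑ a, bb S.m (S.r y) i a * M (a, c) (b, d))) =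
        ∑ a, M (b, d) (a, c) * M (a, c) (b, d) := fun b =>
      res_sum (S.r y) (bb S.m (S.r y)) S.m hres (fun b' => M (b, d) (b', c))
        (fun a => M (a, c) (b, d))
    simp only [s2]
    rw [Finset.sum_comm]
    exact Finset.sum_congr rfl fun a _ => Finset.sum_congr rfl fun b _ => by ring
  have e3 : ∑ i, ∑ c, ∑ j, ∑ d, S.r y i * S.r y j * (S.X ψ y i c j d * S.X ψ y j d i c) =
      ∑ c, ∑ d, ∑ i, ∑ j, S.r y i * S.r y j * (S.X ψ y i c j d * S.X ψ y j d i c) := by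
    rw [Finset.sum_comm]
    refine Finset.sum_congr rfl fun c _ => ?_
    calc ∑ i, ∑ j, ∑ d, S.r y i * S.r y j * (S.X ψ y i c j d * S.X ψ y j d i c)
        = ∑ i, ∑ d, ∑ j, S.r y i * S.r y j * (S.X ψ y i c j d * S.X ψ y j d i c) :=
          Finset.sum_congr rfl fun i _ => Finset.sum_comm
      _ = _ := Finset.sum_comm
  rw [e3]
  simp only [e1]
  rw [Fintype.sum_prod_type, Finset.sum_comm]
  refine Finset.sum_congr rfl fun c _ => ?_
  simp only [Fintype.sum_prod_type]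
  calc ∑ a, ∑ b, ∑ d, M (a, c) (b, d) * M (b, d) (a, c)
      = ∑ a, ∑ d, ∑ b, M (a, c) (b, d) * M (b, d) (a, c) :=
        Finset.sum_congr rfl fun a _ => Finset.sum_comm
    _ = _ := Finset.sum_comm

theorem pd_comm (ψ : Pt k → ℝ) (hψ : ContDiff ℝ (⊤ : ℕ∞) ψ) (y : Pt k) (p q : Fin k × Fin 3) :
    pd p (pd q ψ) y = pd q (pd p ψ) y := by
  have hs : IsSymmSndFDerivAt ℝ ψ y :=
    ((contDiff_infty.1 hψ 2).contDiffAt).isSymmSndFDerivAt (by simp)
  have hd : DifferentiableAt ℝ (fderiv ℝ ψ) y :=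
    (hψ.fderiv_right (m := (⊤ : ℕ∞)) (by simp)).differentiable (by simp) y
  have e : ∀ u v : Pt k, fderiv ℝ (fun z => fderiv ℝ ψ z u) y v =
      fderiv ℝ (fderiv ℝ ψ) y v u := by
    intro u v
    rw [fderiv_clm_apply hd (differentiableAt_const u)]
    simp
  unfold pd
  rw [e, e]
  exact hs _ _

theorem ak2 (hSr : SrStatement) (S : Sys n k)
    (ψ : Pt k → ℝ) (hψ : ContDiff ℝ (⊤ : ℕ∞) ψ) (y : Pt k) (i : Fin n) (c : Fin 3) (j : Fin n)
    (d : Fin 3) :
    S.X ψ y i c j d = (∑ a, ∑ a', bb S.m (S.r y) j a * bb S.m (S.r y) i a' *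
        pd (a', c) (pd (a, d) ψ) y) -
      ∑ l, 2 * S.δ * S.r y l / S.L y l * be S.m (S.r y) l i * be S.m (S.r y) l j *
        (Yv S.m y l c * Yv S.m (S.hf ψ y) l d) := by
  have F := hSr n k S 0
  have hb : ∀ a, DifferentiableAt ℝ (fun z => bb S.m (S.r z) j a) y := fun a =>
    (F.sbb j a).differentiable (by simp) y
  have hp : ∀ a, DifferentiableAt ℝ (pd (a, d) ψ) y := fun a =>
    (pd_smooth ψ hψ (a, d)).differentiable (by simp) y
  unfold Sys.X Sys.D
  simp only [Yv_hf]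
  rw [fderiv_fun_sum (fun a _ => (hb a).fun_mul (hp a))]
  simp only [_root_.sum_apply]
  have e1 : ∀ a, (fderiv ℝ (fun z => bb S.m (S.r z) j a * pd (a, d) ψ z) y) (S.fr y i c) =
      (∑ a', bb S.m (S.r y) j a * bb S.m (S.r y) i a' * pd (a', c) (pd (a, d) ψ) y) +
      ∑ l, -(2 * S.δ * S.r y l / S.L y l * be S.m (S.r y) l i * be S.m (S.r y) l j *
        (Yv S.m y l c * (bb S.m (S.r y) l a * pd (a, d) ψ y))) := by
    intro a
    rw [fderiv_fun_mul (hb a) (hp a)]
    simp only [_root_.add_apply, _root_.smul_apply, smul_eq_mul]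
    congr 1
    · rw [fd_pd, Fintype.sum_prod_type, Finset.mul_sum]
      refine Finset.sum_congr rfl fun a' _ => ?_
      simp only [Sys.fr]
      rw [Finset.sum_eq_single c]
      · simp; ring
      · intro c' _ hc'
        simp [hc']
      · simp
    · rw [F.dbb, mul_neg, Finset.mul_sum, ← Finset.sum_neg_distrib]
      refine Finset.sum_congr rfl fun l _ => ?_
      rw [F.dlfr]
      ring
  simp only [e1]
  rw [Finset.sum_add_distrib, sub_eq_add_neg]
  congr 1
  rw [Finset.sum_comm, ← Finset.sum_neg_distrib]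
  refine Finset.sum_congr rfl fun l _ => ?_
  rw [Finset.mul_sum, Finset.mul_sum, ← Finset.sum_neg_distrib]

theorem ak_st (hWa : WaStatement) (hSl : SlStatement) (hSr : SrStatement) : AkStatement := by
  intro n k S ψ hψ y
  refine ⟨ak1 hWa hSl hSr S ψ hψ y, fun i c j d => ?_⟩
  rw [ak2 hSr S ψ hψ y i c j d, ak2 hSr S ψ hψ y j d i c]
  have e : (∑ a, ∑ a', bb S.m (S.r y) j a * bb S.m (S.r y) i a' *
        pd (a', c) (pd (a, d) ψ) y) = ∑ a, ∑ a', bb S.m (S.r y) i a * bb S.m (S.r y) j a' *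
        pd (a', d) (pd (a, c) ψ) y := by
    rw [Finset.sum_comm]
    refine Finset.sum_congr rfl fun a _ => Finset.sum_congr rfl fun a' _ => ?_
    rw [pd_comm ψ hψ y (a, c) (a', d)]
    ring
  rw [e]
  have e2 : ∀ (A B C : ℝ), A - B - (A - C) = C - B := fun A B C => by ring
  rw [e2, ← Finset.sum_sub_distrib]
  refine Finset.sum_congr rfl fun l _ => ?_
  ring

end Pool.Agent.Lib.MP_fa837f_gt.P2.H28
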