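import Pool.Agent.Lib.MP_fa837f_gt.P2.Iface

/-!
FI: the final statement, from the concavity of `log GG` for `1 < α ≤ 5/4`.
-/

set_option autoImplicit false

open MeasureTheory Matrix Set Filter Topology

namespace Pool.Agent.Lib.MP_fa837f_gt.P2.H28

theorem fi_st (hLm : LmStatement) : FiStatement := by
  intro p hp1 hp2 n k hk H hH
  have hkH : 0 < Module.finrank ℝ H := by omega
  have hp : 1 ≤ p := by linarith
  have hpos : 0 < p := by linarith
  have hint := intg_of_span hp (coef_span H)
  have hG : ∀ t : Fin n → ℝ, 0 < GG (coef H) (p / 2) (fun i => Real.exp (-(p * t i))) := fun t =>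
    GG_pos hint fun i => Real.exp_pos _
  have hΓ : 0 < Real.Gamma (Module.finrank ℝ H / p + 1) := Real.Gamma_pos_of_pos (by positivity)
  have hp0 : ∀ t, 0 < sectionVol p H t := fun t => by
    rw [sectionVol_eq H hp hkH]
    exact div_pos (hG t) hΓ
  refine ⟨hp0, ?_⟩
  intro s t l hl0 hl1
  have hconc := hLm n (Module.finrank ℝ H) (coef H) (p / 2) (by linarith) (by linarith)
    (coef_span H) hint
  have h := hconc.2 (mem_univ (fun i => -(p * s i))) (mem_univ (fun i => -(p * t i))) hl0
    (sub_nonneg.2 hl1) (by ring)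
  simp only [smul_eq_mul] at h
  have e : (fun i => Real.exp ((l • (fun i => -(p * s i)) + (1 - l) • (fun i => -(p * t i)) :
      Fin n → ℝ) i)) = fun i => Real.exp (-(p * (l • s + (1 - l) • t) i)) := by
    ext i
    simp only [Pi.add_apply, Pi.smul_apply, smul_eq_mul]
    congr 1
    ring
  rw [e] at h
  rw [← Real.log_le_log_iff (mul_pos (Real.rpow_pos_of_pos (hp0 _) _)
    (Real.rpow_pos_of_pos (hp0 _) _)) (hp0 _), Real.log_mul (Real.rpow_pos_of_pos (hp0 _) _).ne'
    (Real.rpow_pos_of_pos (hp0 _) _).ne', Real.log_rpow (hp0 _), Real.log_rpow (hp0 _),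
    sectionVol_eq H hp hkH, sectionVol_eq H hp hkH, sectionVol_eq H hp hkH,
    Real.log_div (hG _).ne' hΓ.ne', Real.log_div (hG _).ne' hΓ.ne', Real.log_div (hG _).ne' hΓ.ne']
  linarith

end Pool.Agent.Lib.MP_fa837f_gt.P2.H28
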