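import Pool.Agent.Lib.MP_fa837f_gt.P2.Iface

/-!
TM: closure properties of tame and polynomially bounded functions.
-/

set_option autoImplicit false

open MeasureTheory Matrix Set Filter Topology

namespace Pool.Agent.Lib.MP_fa837f_gt.P2.H28

variable {k : ℕ}

theorem pb_add {f g : Pt k → ℝ} (hf : PB f) (hg : PB g) : PB fun y => f y + g y := by
  obtain ⟨C, N, h⟩ := hf
  obtain ⟨D, M, h'⟩ := hg
  refine ⟨|C| + |D|, N + M, fun y => ?_⟩
  have h1 : (1 : ℝ) ≤ 1 + ‖y‖ := by linarith [norm_nonneg y]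
  have e1 : (1 + ‖y‖) ^ N ≤ (1 + ‖y‖) ^ (N + M) := pow_le_pow_right₀ h1 (by omega)
  have e2 : (1 + ‖y‖) ^ M ≤ (1 + ‖y‖) ^ (N + M) := pow_le_pow_right₀ h1 (by omega)
  have p1 : 0 ≤ (1 + ‖y‖) ^ N := by positivity
  have p2 : 0 ≤ (1 + ‖y‖) ^ M := by positivity
  calc |f y + g y| ≤ |f y| + |g y| := abs_add_le _ _
    _ ≤ C * (1 + ‖y‖) ^ N + D * (1 + ‖y‖) ^ M := add_le_add (h y) (h' y)
    _ ≤ |C| * (1 + ‖y‖) ^ N + |D| * (1 + ‖y‖) ^ M :=
        add_le_add (mul_le_mul_of_nonneg_right (le_abs_self C) p1)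
          (mul_le_mul_of_nonneg_right (le_abs_self D) p2)
    _ ≤ |C| * (1 + ‖y‖) ^ (N + M) + |D| * (1 + ‖y‖) ^ (N + M) :=
        add_le_add (mul_le_mul_of_nonneg_left e1 (abs_nonneg C))
          (mul_le_mul_of_nonneg_left e2 (abs_nonneg D))
    _ = (|C| + |D|) * (1 + ‖y‖) ^ (N + M) := by ring

theorem pb_mul {f g : Pt k → ℝ} (hf : PB f) (hg : PB g) : PB fun y => f y * g y := by
  obtain ⟨C, N, h⟩ := hf
  obtain ⟨D, M, h'⟩ := hg
  refine ⟨|C| * |D|, N + M, fun y => ?_⟩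
  have p1 : 0 ≤ (1 + ‖y‖) ^ N := by positivity
  have p2 : 0 ≤ (1 + ‖y‖) ^ M := by positivity
  have a1 : |f y| ≤ |C| * (1 + ‖y‖) ^ N :=
    (h y).trans (mul_le_mul_of_nonneg_right (le_abs_self C) p1)
  have a2 : |g y| ≤ |D| * (1 + ‖y‖) ^ M :=
    (h' y).trans (mul_le_mul_of_nonneg_right (le_abs_self D) p2)
  calc |f y * g y| = |f y| * |g y| := abs_mul _ _
    _ ≤ (|C| * (1 + ‖y‖) ^ N) * (|D| * (1 + ‖y‖) ^ M) :=
        mul_le_mul a1 a2 (abs_nonneg _) (by positivity)
    _ = |C| * |D| * (1 + ‖y‖) ^ (N + M) := by rw [pow_add]; ring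

theorem tame_add {f g : Pt k → ℝ} (hf : Tame f) (hg : Tame g) : Tame fun y => f y + g y := by
  refine ⟨hf.smooth.add hg.smooth, pb_add hf.bd hg.bd, fun p => ?_⟩
  have h := pb_add (hf.dbd p) (hg.dbd p)
  have e : (fun y => fderiv ℝ (fun y => f y + g y) y (Pi.single p 1)) =
      fun y => fderiv ℝ f y (Pi.single p 1) + fderiv ℝ g y (Pi.single p 1) := by
    funext y
    rw [fderiv_fun_add (hf.smooth.differentiable one_ne_zero y)
      (hg.smooth.differentiable one_ne_zero y)]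
    rfl
  rw [e]
  exact h

theorem tame_mul {f g : Pt k → ℝ} (hf : Tame f) (hg : Tame g) : Tame fun y => f y * g y := by
  refine ⟨hf.smooth.mul hg.smooth, pb_mul hf.bd hg.bd, fun p => ?_⟩
  have h := pb_add (pb_mul hf.bd (hg.dbd p)) (pb_mul hg.bd (hf.dbd p))
  have e : (fun y => fderiv ℝ (fun y => f y * g y) y (Pi.single p 1)) =
      fun y => f y * fderiv ℝ g y (Pi.single p 1) + g y * fderiv ℝ f y (Pi.single p 1) := by
    funext y
    rw [fderiv_fun_mul (hf.smooth.differentiable one_ne_zero y)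
      (hg.smooth.differentiable one_ne_zero y)]
    simp
  rw [e]
  exact h

theorem pb_const (a : ℝ) : PB fun _ : Pt k => a := ⟨|a|, 0, fun y => by simp⟩

theorem tame_const (a : ℝ) : Tame fun _ : Pt k => a := by
  refine ⟨contDiff_const, pb_const a, fun p => ?_⟩
  have e : (fun y : Pt k => fderiv ℝ (fun _ : Pt k => a) y (Pi.single p 1)) = fun _ => (0 : ℝ) := by
    funext y
    simp
  rw [e]
  exact pb_const 0

theorem pb_cpt {f : Pt k → ℝ} (hf : Continuous f) (hc : HasCompactSupport f) : PB f := by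
  obtain ⟨C, hC⟩ := hc.exists_bound_of_continuous hf
  exact ⟨C, 0, fun y => by simpa using hC y⟩

theorem tame_cpt {f : Pt k → ℝ} (hf : ContDiff ℝ 1 f) (hc : HasCompactSupport f) : Tame f := by
  refine ⟨hf, pb_cpt hf.continuous hc, fun p => ?_⟩
  refine pb_cpt ((hf.continuous_fderiv one_ne_zero).clm_apply continuous_const) ?_
  exact (hc.fderiv (𝕜 := ℝ)).mono' (by
    intro y hy
    refine subset_tsupport _ ?_
    rw [Function.mem_support] at hy ⊢
    intro h
    exact hy (by rw [h]; rfl))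

theorem tame_sum {ι : Type} (s : Finset ι) (f : ι → Pt k → ℝ) (h : ∀ i, Tame (f i)) :
    Tame fun y => ∑ i ∈ s, f i y := by
  classical
  induction s using Finset.induction_on with
  | empty =>
    simp only [Finset.sum_empty]
    exact tame_const 0
  | insert a s ha ih =>
    simp only [Finset.sum_insert ha]
    exact tame_add (h a) ih

theorem tm_st : TmStatement := by
  intro k
  exact ⟨fun f g hf hg => tame_add hf hg, fun f g hf hg => tame_mul hf hg, tame_const,
    fun f hf hc => tame_cpt hf hc, fun f g hf hg => ⟨pb_add hf hg, pb_mul hf hg⟩,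
    fun ι _ f h => tame_sum _ f h⟩

end Pool.Agent.Lib.MP_fa837f_gt.P2.H28
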