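import Pool.Agent.Lib.MP_fa837f_gt.P2.H4.Kl
import Pool.Agent.Lib.MP_fa837f_gt.P2.H5.Wb
import Pool.Agent.Lib.MP_fa837f_gt.P2.H9.Po
import Pool.Agent.Lib.MP_fa837f_gt.P2.H9.Tr
import Pool.Agent.Lib.MP_fa837f_gt.P2.H13.KW
import Pool.Agent.Lib.MP_fa837f_gt.P2.H14.KM
import Pool.Agent.Lib.MP_fa837f_gt.P2.H16.Ib
import Pool.Agent.Lib.MP_fa837f_gt.P2.H17.Sl
import Pool.Agent.Lib.MP_fa837f_gt.P2.H17.Sr
import Pool.Agent.Lib.MP_fa837f_gt.P2.H17.Ts
import Pool.Agent.Lib.MP_fa837f_gt.P2.H22.Fb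
import Pool.Agent.Lib.MP_fa837f_gt.P2.H24.Di
import Pool.Agent.Lib.MP_fa837f_gt.P2.H24.Mo
import Pool.Agent.Lib.MP_fa837f_gt.P2.H28.Ak
import Pool.Agent.Lib.MP_fa837f_gt.P2.H28.Fi
import Pool.Agent.Lib.MP_fa837f_gt.P2.H28.Tm
import Pool.Agent.Lib.MP_fa837f_gt.P2.H30.Wd
import Pool.Agent.Lib.MP_fa837f_gt.P2.H33.Du
import Pool.Agent.Lib.MP_fa837f_gt.P2.H36.Al
import Pool.Agent.Lib.MP_fa837f_gt.P2.H41.Li
import Pool.Agent.Lib.MP_fa837f_gt.P2.H41.Pa
import Pool.Agent.Lib.MP_fa837f_gt.P2.H43.Kg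
import Pool.Agent.Lib.MP_fa837f_gt.P2.H44.Lm
import Pool.Agent.Lib.MP_fa837f_gt.P2.H45.Dv
import Pool.Agent.Lib.MP_fa837f_gt.P2.H46.L3
import Pool.Agent.Lib.MP_fa837f_gt.P2.H56.Ef
import Pool.Agent.Lib.MP_fa837f_gt.P2.H57.Wa
import Pool.Agent.Lib.MP_fa837f_gt.P2.H61.In
import Pool.Agent.Lib.MP_fa837f_gt.P2.H66.He
import Pool.Agent.Lib.MP_fa837f_gt.P2.H78.Fr
import Pool.Agent.Lib.MP_fa837f_gt.P2.H79.E3
import Pool.Agent.Lib.MP_fa837f_gt.P2.H82.E1
import Pool.Agent.Lib.MP_fa837f_gt.P2.H82.E2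
import Pool.Agent.Lib.MP_fa837f_gt.P2.H84.L2
import Pool.Agent.Lib.MP_fa837f_gt.P2.H88.Ws
import Pool.Agent.Lib.MP_fa837f_gt.P2.H91.Bo
import Pool.Agent.Lib.MP_fa837f_gt.P2.H92.DC
import Pool.Agent.Lib.MP_fa837f_gt.P2.H94.We
import Pool.Agent.Lib.MP_fa837f_gt.P2.H96.L1
import Pool.Agent.Lib.MP_fa837f_gt.P2.H97.Ha

/-!
Project P2 (exponents `2 < p ≤ 5/2`): assembly of all modules.
-/

set_option autoImplicit false

namespace Pool.Agent.Lib.MP_fa837f_gt.P2.H28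

/-- The final statement. -/
theorem all_st : FiStatement := by
  have hKl : KlStatement := H4.kl_st H14.km_st H13.KW_st H43.kg_st
  have hTm : TmStatement := H28.tm_st
  have hWa : WaStatement := H57.wa_st
  have hWs : WsStatement := H88.ws_st hWa
  have hWb : WbStatement := H5.wb_st hWa
  have hWd : WdStatement := H30.wd_st
  have hWe : WeStatement := H94.we_st hWa hWb hWd
  have hSl : SlStatement := H17.sl_st
  have hSr : SrStatement := H17.sr_st hWa hWd hWe hSl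
  have hTs : TsStatement := H17.ts_st hWa hSl hSr hTm
  have hIn : InStatement := H61.in_st hSl hSr hTs
  have hIb : IbStatement := H16.ib_st hWa hSl hSr hTs hIn hTm
  have hAk : AkStatement := H28.ak_st hWa hSl hSr
  have hDi : DiStatement := H24.di_st hWa hSl hSr hIn
  have hMo : MoStatement := H24.mo_st H9.tr_st
  have hE1 : E1Statement := H82.e1_st hWa hWs hWb hSl hSr hTm hTs hIn hIb
  have hE2 : E2Statement := H82.e2_st hWa hWs hWb hSl hSr hTm hTs hIn hIb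
  have hHe : HeStatement := H66.he_st hWa hWs hSl hSr
  have hAl : AlStatement := H36.al_st hWa hWs hAk
  have hHa : HaStatement := H97.ha_st hWa hSl hSr hTm hTs hIn hIb
  have hBo : BoStatement := H91.bo_st hWa hSl hSr H22.fb_st hHe hAl hHa
  have hFr : FrStatement := H78.fr_st H9.tr_st
  have hL2 : L2Statement := H84.l2_st hMo hFr H96.l1
  have hL3 : L3Statement := H46.l3_st hMo
  have hLi : LiStatement := H41.li_st hL2 hL3
  have hPa : PaStatement := H41.pa_st hLi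
  have hPo : PoStatement := H9.po_st hTm hTs hIn hPa hBo hDi
  have hE3 : E3Statement := H79.e3_st hWs hSl hSr hTm hTs hIn hPo
  have hEf : EfStatement := H56.ef hWa hWb hSl hTs hIn hE1 hE2 hE3
  have hDu : DuStatement := H33.du_st hWa hWb hWd hWe hSl
  have hDv : DvStatement := H45.dv_st hWb hSl hSr hTm hTs hIn hIb hDu
  have hDc : DcStatement := H92.dc_st hSr hIn hEf hDv hKl
  have hLm : LmStatement := H44.lm_st hDc
  exact H28.fi_st hLm

end Pool.Agent.Lib.MP_fa837f_gt.P2.H28
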